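import Pool.Agent.Bondage.Graph

set_option autoImplicit false

namespace Pool.Agent.Bondage

open Finset

/-! ### lower bound for the domination number -/

/-- one step of the search: cover the highest undominated vertex in all four ways -/
def lowStep (ih : ℕ → Bool) (und : ℕ) : Bool :=
  Nat.blt 0 und &&
    ((ih (Nat.land und (Nat.shiftRight bigT (Nat.mul 96 (Nat.log2 und)))) &&
      ih (Nat.land und (Nat.shiftRight bigT (Nat.add (Nat.mul 96 (Nat.log2 und)) 24)))) &&
     (ih (Nat.land und (Nat.shiftRight bigT (Nat.add (Nat.mul 96 (Nat.log2 und)) 48))) &&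
      ih (Nat.land und (Nat.shiftRight bigT (Nat.add (Nat.mul 96 (Nat.log2 und)) 72)))))

/-- `true` if no at most `k` closed neighbourhoods cover `und` (bit mask) -/
noncomputable def low (k : ℕ) : ℕ → Bool :=
  Nat.rec (motive := fun _ => ℕ → Bool) (fun und => Nat.blt 0 und) (fun _ ih => lowStep ih) k

theorem bigT_spec : ∀ u v : Fin 24, (v = u ∨ G.Adj v u) → ∃ i : Fin 4, ∀ w : Fin 24,
    (bigT >>> (96 * v.val + 24 * i.val)).testBit w.val = true ↔ ¬ (w = u ∨ G.Adj w u) := by
  decide +kernel

theorem blt_iff (und : ℕ) : Nat.blt 0 und = true ↔ 0 < und := by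
  simp [Nat.blt_eq]

theorem low_succ (k und : ℕ) (h : low (k + 1) und = true) : 0 < und ∧ ∀ i : Fin 4,
    low k (und &&& (bigT >>> (96 * Nat.log2 und + 24 * i.val))) = true := by
  have h' : lowStep (low k) und = true := h
  unfold lowStep at h'
  rw [Bool.and_eq_true, Bool.and_eq_true, Bool.and_eq_true, Bool.and_eq_true, blt_iff] at h'
  obtain ⟨h0, ⟨h1, h2⟩, h3, h4⟩ := h'
  refine ⟨h0, ?_⟩
  intro i
  fin_cases i
  · exact h1
  · exact h2
  · exact h3
  · exact h4

theorem low_sound : ∀ (k und : ℕ), und < 2 ^ 24 → low k und = true →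
    ∀ D : Finset (Fin 24), D.card ≤ k →
    ∃ v : Fin 24, und.testBit v.val = true ∧ ∀ u ∈ D, ¬ (v = u ∨ G.Adj v u) := by
  intro k
  have hlog : ∀ und : ℕ, und < 2 ^ 24 → 0 < und →
      ∃ v : Fin 24, v.val = Nat.log2 und ∧ und.testBit v.val = true := by
    intro und hlt hpos
    have h1 : Nat.log2 und < 24 := (Nat.log2_lt (by omega)).mpr hlt
    refine ⟨⟨_, h1⟩, rfl, ?_⟩
    exact Nat.testBit_log2 (by omega)
  induction k with
  | zero =>
    intro und hlt h D hD
    have hD0 : D = ∅ := by
      rw [← Finset.card_eq_zero]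
      omega
    subst hD0
    have h' : Nat.blt 0 und = true := h
    rw [blt_iff] at h'
    obtain ⟨v, -, hv⟩ := hlog und hlt h'
    exact ⟨v, hv, fun u hu => absurd hu (Finset.notMem_empty u)⟩
  | succ k ih =>
    intro und hlt h D hD
    obtain ⟨h0, hall⟩ := low_succ k und h
    obtain ⟨v, hv1, hv2⟩ := hlog und hlt h0
    by_cases hex : ∃ u ∈ D, (v = u ∨ G.Adj v u)
    · obtain ⟨u, hu, huv⟩ := hex
      obtain ⟨i, hi⟩ := bigT_spec u v huv
      have h1 := hall i
      rw [← hv1] at h1
      have hlt' : und &&& (bigT >>> (96 * v.val + 24 * i.val)) < 2 ^ 24 :=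
        lt_of_le_of_lt Nat.and_le_left hlt
      obtain ⟨v', hv'1, hv'2⟩ := ih _ hlt' h1 (D.erase u) (by
        rw [Finset.card_erase_of_mem hu]
        omega)
      rw [Nat.testBit_land, Bool.and_eq_true] at hv'1
      refine ⟨v', hv'1.1, ?_⟩
      intro u' hu'
      by_cases huu : u' = u
      · subst huu
        exact (hi v').mp hv'1.2
      · exact hv'2 u' (Finset.mem_erase.mpr ⟨huu, hu'⟩)
    · push Not at hex
      refine ⟨v, hv2, ?_⟩
      intro u hu hcon
      rcases hcon with h1 | h1
      · exact (hex u hu).1 h1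
      · exact (hex u hu).2 h1

theorem low_check : low 7 16777215 = true := by decide +kernel

/-- every dominating set has at least 8 vertices -/
theorem dom_ge (D : Finset (Fin 24)) (hD : ∀ v, v ∈ D ∨ ∃ u ∈ D, G.Adj u v) : 8 ≤ D.card := by
  by_contra hcon
  obtain ⟨v, -, hv⟩ := low_sound 7 16777215 (by norm_num) low_check D (by omega)
  rcases hD v with h | ⟨u, hu, huv⟩
  · exact hv v h (Or.inl rfl)
  · exact hv u hu (Or.inr huv.symm)

/-! ### the bondage search

An entry `(D, M, sing, dbl)` of the table: `D` dominating set, `sing` the masks of the single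
edges, `M` their union, `dbl` the other masks. -/

/-- all edges -/
def ALL : ℕ := 68719476735

/-- contribution of a mask (already restricted to the complement of `X`) -/
def kk (r : ℕ) : ℕ :=
  match Nat.beq r 0 with
  | true => ALL
  | false => match Nat.beq (Nat.land r (Nat.sub r 1)) 0 with
    | true => r
    | false => 0

/-- fold over the non-single masks -/
def Kd (nX : ℕ) : List ℕ → ℕ → ℕ
  | [], acc => acc
  | q :: qs, acc => Kd nX qs (Nat.lor acc (kk (Nat.land q nX)))

/-- edges `e` such that `X ∪ {e}` may kill the entry -/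
def KK (X nX : ℕ) (d : ℕ × ℕ × List ℕ × List ℕ) : ℕ :=
  match Nat.beq (Nat.land d.2.1 X) 0 with
  | true => Kd nX d.2.2.2 d.2.1
  | false => ALL

/-- level one: the common kill set becomes empty -/
def chk1 (X nX : ℕ) : List (ℕ × ℕ × List ℕ × List ℕ) → ℕ → Bool
  | [], _ => false
  | d :: ds, I =>
    match Nat.beq (Nat.land I (KK X nX d)) 0 with
    | true => true
    | false => chk1 X nX ds (Nat.land I (KK X nX d))

/-- no mask of the list is inside `X` -/
def noneIn (nX : ℕ) : List ℕ → Bool
  | [] => true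
  | q :: qs => match Nat.beq (Nat.land q nX) 0 with
    | true => false
    | false => noneIn nX qs

def alive (X nX : ℕ) (d : ℕ × ℕ × List ℕ × List ℕ) : Bool :=
  match Nat.beq (Nat.land d.2.1 X) 0 with
  | true => noneIn nX d.2.2.2
  | false => false

def findA (X nX : ℕ) : List (ℕ × ℕ × List ℕ × List ℕ) → Option (ℕ × ℕ × List ℕ × List ℕ)
  | [] => none
  | d :: ds => match alive X nX d with
    | true => some d
    | false => findA X nX ds

def F0 (X : ℕ) : Bool :=
  match findA X (Nat.xor ALL X) tbl with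
  | none => false
  | some _ => true

def F1 (X : ℕ) : Bool := chk1 X (Nat.xor ALL X) tbl ALL

def branch (fs fd : ℕ → Bool) (X : ℕ) (q : ℕ) : Bool :=
  match Nat.beq (Nat.land (Nat.land q (Nat.xor ALL X))
      (Nat.sub (Nat.land q (Nat.xor ALL X)) 1)) 0 with
  | true => fs (Nat.lor X q)
  | false => fd (Nat.lor X q)

def node (fs fd : ℕ → Bool) (X : ℕ) : Bool :=
  match findA X (Nat.xor ALL X) tbl with
  | none => false
  | some d => d.2.2.1.all (fun q => fs (Nat.lor X q)) && d.2.2.2.all (branch fs fd X)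

def F2 : ℕ → Bool := node F1 F0
def F3 : ℕ → Bool := node F2 F1
def F4 : ℕ → Bool := node F3 F2

theorem F4_check : F4 0 = true := by decide +kernel

end Pool.Agent.Bondage
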