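import Pool.Agent.Lib.MacLaneK
import Pool.Agent.Bondage.Data

set_option autoImplicit false

namespace Pool.Agent.Bondage

open Finset Pool.Agent.MacLane

def s (e : Fin 36) : Fin 24 := Fin.ofNat 24 ((bigS >>> (5 * e.val)) &&& 31)
def t (e : Fin 36) : Fin 24 := Fin.ofNat 24 ((bigE >>> (5 * e.val)) &&& 31)
def l (e : Fin 36) : Fin 14 := Fin.ofNat 14 ((bigL >>> (5 * e.val)) &&& 31)
def r (e : Fin 36) : Fin 14 := Fin.ofNat 14 ((bigR >>> (5 * e.val)) &&& 31)

/-- the truncated octahedron -/
def G : SimpleGraph (Fin 24) where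
  Adj u v := bigA.testBit (24 * u.val + v.val) = true
  symm := ⟨by decide +kernel⟩
  loopless := ⟨by decide +kernel⟩

instance : DecidableRel G.Adj := fun u v =>
  inferInstanceAs (Decidable (bigA.testBit (24 * u.val + v.val) = true))

theorem adj_edge : ∀ u v, G.Adj u v → ∃ e, (s e = u ∧ t e = v) ∨ (s e = v ∧ t e = u) := by
  decide +kernel

theorem edge_adj : ∀ e, G.Adj (s e) (t e) := by decide +kernel

def h1 (v : Fin 24) (e : Fin 36) : ZMod 2 := if bigH1.testBit (36 * v.val + e.val) then 1 else 0
def h2 (e : Fin 36) (p : Fin 14) : ZMod 2 := if bigH2.testBit (14 * e.val + p.val) then 1 else 0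

theorem homotopy : ∀ e e', (if e = e' then (1 : ZMod 2) else 0) =
      h1 (s e) e' + h1 (t e) e' + (h2 e (l e') + h2 e (r e')) := by
  decide +kernel

theorem face_check : ∀ (p : Fin 14) (w : Fin 24),
    bd s t (fun e => (if l e = p then 1 else 0) + (if r e = p then 1 else 0)) w = 0 := by
  decide +kernel

theorem cert : Cert G s t l r where
  adj := adj_edge
  face := face_of_check s t l r face_check
  gen := gen_of_homotopy s t l r h1 h2 homotopy

end Pool.Agent.Bondage
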