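import Pool.Agent.Bondage.Dom

set_option autoImplicit false

namespace Pool.Agent.Bondage

open Finset

/-- all bits of `m` are in `S` -/
def Sub (m : ℕ) (S : Finset ℕ) : Prop := ∀ i, m.testBit i = true → i ∈ S

/-- the entry is killed by the edge set `S` -/
def Killed (d : ℕ × ℕ × List ℕ × List ℕ) (S : Finset ℕ) : Prop :=
  (∃ m ∈ d.2.2.1, Sub m S) ∨ ∃ m ∈ d.2.2.2, Sub m S

/-- structural validity of a table entry -/
def Ok (d : ℕ × ℕ × List ℕ × List ℕ) : Prop :=
  (∀ m ∈ d.2.2.1, m = 2 ^ Nat.log2 m ∧ Nat.log2 m < 36 ∧ d.2.1.testBit (Nat.log2 m) = true) ∧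
  ∀ m ∈ d.2.2.2, m < 2 ^ 36

instance (d : ℕ × ℕ × List ℕ × List ℕ) : Decidable (Ok d) := by
  unfold Ok
  infer_instance

theorem tbl_ok : ∀ d ∈ tbl, Ok d := by decide +kernel

theorem beq_zero_iff (a : ℕ) : Nat.beq a 0 = true ↔ a = 0 := by
  simp

theorem nX_bit (X i : ℕ) (hi : i < 36) : (Nat.xor ALL X).testBit i = !X.testBit i := by
  have h1 : ALL = 2 ^ 36 - 1 := by norm_num [ALL]
  have h2 : ALL.testBit i = true := by
    rw [h1, Nat.testBit_two_pow_sub_one]
    simpa using hi
  change (ALL ^^^ X).testBit i = _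
  rw [Nat.testBit_xor, h2]
  simp

theorem bit_lt {m i : ℕ} (hm : m < 2 ^ 36) (h : m.testBit i = true) : i < 36 := by
  by_contra hcon
  have h2 : m < 2 ^ i := lt_of_lt_of_le hm (Nat.pow_le_pow_right (by norm_num) (by omega))
  rw [Nat.testBit_lt_two_pow h2] at h
  exact absurd h (by simp)

theorem exists_bit {m : ℕ} (h : m ≠ 0) : ∃ i, m.testBit i = true :=
  Nat.exists_testBit_of_ne_zero h

theorem single_of {m : ℕ} (h : m ≠ 0) (h1 : ∀ i j, m.testBit i = true → m.testBit j = true → i = j) :
    ∃ i, m = 2 ^ i := by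
  obtain ⟨i, hi⟩ := exists_bit h
  refine ⟨i, ?_⟩
  apply Nat.eq_of_testBit_eq
  intro j
  rw [Nat.testBit_two_pow]
  by_cases hj : i = j
  · subst hj
    simp [hi]
  · simp only [hj, decide_false]
    by_contra hcon
    exact hj (h1 i j hi (by simpa using hcon))

theorem and_pred_single (i : ℕ) : Nat.land (2 ^ i) (Nat.sub (2 ^ i) 1) = 0 := by
  change 2 ^ i &&& (2 ^ i - 1) = 0
  rw [Nat.and_two_pow_sub_one_eq_mod]
  exact Nat.mod_self _

theorem two_bits {m : ℕ} (h : Nat.land m (Nat.sub m 1) ≠ 0) :
    ∃ i j, i ≠ j ∧ m.testBit i = true ∧ m.testBit j = true := by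
  by_contra hcon
  push Not at hcon
  have h0 : m ≠ 0 := by
    rintro rfl
    exact h rfl
  obtain ⟨i, rfl⟩ := single_of h0 (fun i j hi hj => by
    by_contra hij
    exact hcon i j hij hi hj)
  exact h (and_pred_single i)

theorem land_bit (a b i : ℕ) : (Nat.land a b).testBit i = (a.testBit i && b.testBit i) :=
  Nat.testBit_land a b i

theorem lor_bit (a b i : ℕ) : (Nat.lor a b).testBit i = (a.testBit i || b.testBit i) :=
  Nat.testBit_lor a b i

theorem ALL_bit (i : ℕ) (hi : i < 36) : ALL.testBit i = true := by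
  have h1 : ALL = 2 ^ 36 - 1 := by norm_num [ALL]
  rw [h1, Nat.testBit_two_pow_sub_one]
  simpa using hi

/-- if the bits of `r` are contained in `{e}` then `kk r` contains `e` -/
theorem kk_bit (r e : ℕ) (he : e < 36) (h : ∀ i, r.testBit i = true → i = e) :
    (kk r).testBit e = true := by
  unfold kk
  rcases hr : Nat.beq r 0 with _ | _
  · simp only
    have hr0 : r ≠ 0 := by
      intro h0
      rw [(beq_zero_iff r).mpr h0] at hr
      exact absurd hr (by simp)
    obtain ⟨i, hi⟩ := single_of hr0 (fun i j hi hj => (h i hi).trans (h j hj).symm)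
    have hie : i = e := h i (by rw [hi, Nat.testBit_two_pow]; simp)
    subst hie
    have h2 : Nat.beq (Nat.land r (Nat.sub r 1)) 0 = true := by
      rw [beq_zero_iff, hi]
      exact and_pred_single i
    rw [h2]
    simp only
    rw [hi, Nat.testBit_two_pow]
    simp
  · exact ALL_bit e he

theorem Kd_acc (nX : ℕ) (e : ℕ) : ∀ (l : List ℕ) (acc : ℕ), acc.testBit e = true →
    (Kd nX l acc).testBit e = true := by
  intro l
  induction l with
  | nil => intro acc h; exact h
  | cons q qs ih =>
    intro acc h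
    apply ih
    rw [lor_bit, h]
    rfl

theorem Kd_bit (nX : ℕ) (e : ℕ) (q : ℕ) (hq : (kk (Nat.land q nX)).testBit e = true) :
    ∀ (l : List ℕ) (acc : ℕ), q ∈ l → (Kd nX l acc).testBit e = true := by
  intro l
  induction l with
  | nil => intro acc h; exact absurd h (by simp)
  | cons q' qs ih =>
    intro acc h
    rcases List.mem_cons.mp h with h | h
    · subst h
      change (Kd nX qs (Nat.lor acc (kk (Nat.land q nX)))).testBit e = true
      apply Kd_acc
      rw [lor_bit, hq]
      simp
    · exact ih _ h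

/-- if the entry is killed by a set contained in `X ∪ {e}` then `e` is in `KK` -/
theorem KK_bit (X e : ℕ) (he : e < 36) (d : ℕ × ℕ × List ℕ × List ℕ) (hd : Ok d)
    (S : Finset ℕ) (hS : ∀ i ∈ S, i = e ∨ X.testBit i = true) (hk : Killed d S) :
    (KK X (Nat.xor ALL X) d).testBit e = true := by
  unfold KK
  rcases hM : Nat.beq (Nat.land d.2.1 X) 0 with _ | _
  · exact ALL_bit e he
  · simp only
    rw [beq_zero_iff] at hM
    rcases hk with ⟨m, hm, hsub⟩ | ⟨m, hm, hsub⟩
    · obtain ⟨h1, h2, h3⟩ := hd.1 m hm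
      have hmem : Nat.log2 m ∈ S := hsub _ (by
        rw [h1, Nat.log2_two_pow, Nat.testBit_two_pow]
        simp)
      rcases hS _ hmem with h | h
      · apply Kd_acc
        rw [← h]
        exact h3
      · exfalso
        have h4 : (Nat.land d.2.1 X).testBit (Nat.log2 m) = true := by
          rw [land_bit, h3, h]
          rfl
        rw [hM] at h4
        simp at h4
    · have hlt := hd.2 m hm
      apply Kd_bit _ _ m _ _ _ hm
      apply kk_bit _ _ he
      intro i hi
      rw [land_bit, Bool.and_eq_true] at hi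
      have hi36 := bit_lt hlt hi.1
      rw [nX_bit X i hi36] at hi
      rcases hS i (hsub i hi.1) with h | h
      · exact h
      · rw [h] at hi
        simp at hi

theorem chk1_sound (X e : ℕ) (hall : ∀ d ∈ tbl, (KK X (Nat.xor ALL X) d).testBit e = true) :
    ∀ (l : List (ℕ × ℕ × List ℕ × List ℕ)) (I : ℕ), (∀ d ∈ l, d ∈ tbl) → I.testBit e = true →
      chk1 X (Nat.xor ALL X) l I = false := by
  intro l
  induction l with
  | nil => intro I _ _; rfl
  | cons d ds ih =>
    intro I hl hI
    have h1 : (Nat.land I (KK X (Nat.xor ALL X) d)).testBit e = true := by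
      rw [land_bit, hI, hall d (hl d (by simp))]
      rfl
    unfold chk1
    rcases h2 : Nat.beq (Nat.land I (KK X (Nat.xor ALL X) d)) 0 with _ | _
    · exact ih _ (fun d' hd' => hl d' (List.mem_cons_of_mem _ hd')) h1
    · rw [beq_zero_iff] at h2
      rw [h2] at h1
      simp at h1

/-- the soundness statement of one level of the search -/
def P (k : ℕ) (f : ℕ → Bool) : Prop := ∀ X : ℕ, f X = true → ∀ S : Finset ℕ,
  (∀ i ∈ S, i < 36) → Sub X S → (S.filter (fun i => X.testBit i = false)).card ≤ k →
  ∃ d ∈ tbl, ¬ Killed d S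

theorem noneIn_spec (nX : ℕ) : ∀ l : List ℕ, noneIn nX l = true → ∀ m ∈ l, Nat.land m nX ≠ 0 := by
  intro l
  induction l with
  | nil => intro _ m hm; exact absurd hm (by simp)
  | cons q qs ih =>
    intro h m hm
    unfold noneIn at h
    rcases h2 : Nat.beq (Nat.land q nX) 0 with _ | _
    · rw [h2] at h
      simp only at h
      rcases List.mem_cons.mp hm with hm | hm
      · subst hm
        intro h0
        rw [(beq_zero_iff _).mpr h0] at h2
        exact absurd h2 (by simp)
      · exact ih h m hm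
    · rw [h2] at h
      simp at h

theorem alive_spec (X : ℕ) (d : ℕ × ℕ × List ℕ × List ℕ) (hd : Ok d)
    (h : alive X (Nat.xor ALL X) d = true) :
    (∀ m ∈ d.2.2.1, ∃ i, m.testBit i = true ∧ i < 36 ∧ X.testBit i = false) ∧
    ∀ m ∈ d.2.2.2, Nat.land m (Nat.xor ALL X) ≠ 0 := by
  unfold alive at h
  rcases hM : Nat.beq (Nat.land d.2.1 X) 0 with _ | _
  · rw [hM] at h
    simp at h
  · rw [hM] at h
    simp only at h
    rw [beq_zero_iff] at hM
    refine ⟨?_, noneIn_spec _ _ h⟩
    intro m hm
    obtain ⟨h1, h2, h3⟩ := hd.1 m hm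
    refine ⟨Nat.log2 m, ?_, h2, ?_⟩
    · rw [h1, Nat.log2_two_pow, Nat.testBit_two_pow]
      simp
    · by_contra hcon
      have h4 : (Nat.land d.2.1 X).testBit (Nat.log2 m) = true := by
        rw [land_bit, h3]
        simpa using hcon
      rw [hM] at h4
      simp at h4

theorem findA_spec (X : ℕ) : ∀ (l : List (ℕ × ℕ × List ℕ × List ℕ)) (d : ℕ × ℕ × List ℕ × List ℕ),
    findA X (Nat.xor ALL X) l = some d → d ∈ l ∧ alive X (Nat.xor ALL X) d = true := by
  intro l
  induction l with
  | nil => intro d h; exact absurd h (by simp [findA])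
  | cons d' ds ih =>
    intro d h
    unfold findA at h
    rcases h2 : alive X (Nat.xor ALL X) d' with _ | _
    · rw [h2] at h
      simp only at h
      obtain ⟨h3, h4⟩ := ih d h
      exact ⟨List.mem_cons_of_mem _ h3, h4⟩
    · rw [h2] at h
      simp only [Option.some.injEq] at h
      subst h
      exact ⟨by simp, h2⟩

theorem P0 : P 0 F0 := by
  intro X hX S hS36 hXS hcard
  have hSX : ∀ i ∈ S, X.testBit i = true := by
    intro i hi
    by_contra hcon
    have h1 : i ∈ S.filter (fun i => X.testBit i = false) :=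
      Finset.mem_filter.mpr ⟨hi, by simpa using hcon⟩
    have h2 := Finset.card_pos.mpr ⟨i, h1⟩
    omega
  unfold F0 at hX
  rcases hf : findA X (Nat.xor ALL X) tbl with _ | d
  · rw [hf] at hX
    simp at hX
  · obtain ⟨hd, hal⟩ := findA_spec X tbl d hf
    have hok := tbl_ok d hd
    obtain ⟨h1, h2⟩ := alive_spec X d hok hal
    refine ⟨d, hd, ?_⟩
    rintro (⟨m, hm, hsub⟩ | ⟨m, hm, hsub⟩)
    · obtain ⟨i, hi1, -, hi3⟩ := h1 m hm
      rw [hSX i (hsub i hi1)] at hi3
      exact absurd hi3 (by simp)
    · obtain ⟨i, hi⟩ := exists_bit (h2 m hm)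
      rw [land_bit, Bool.and_eq_true] at hi
      have hi36 := bit_lt (hok.2 m hm) hi.1
      rw [nX_bit X i hi36, hSX i (hsub i hi.1)] at hi
      simp at hi

theorem P1 : P 1 F1 := by
  intro X hX S hS36 hXS hcard
  by_contra hcon
  push Not at hcon
  obtain ⟨e, he36, he⟩ : ∃ e < 36, ∀ i ∈ S, i = e ∨ X.testBit i = true := by
    rcases (S.filter (fun i => X.testBit i = false)).eq_empty_or_nonempty with hE | ⟨e, he⟩
    · refine ⟨0, by norm_num, ?_⟩
      intro i hi
      right
      by_contra hc
      have h1 : i ∈ S.filter (fun i => X.testBit i = false) :=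
        Finset.mem_filter.mpr ⟨hi, by simpa using hc⟩
      rw [hE] at h1
      exact absurd h1 (Finset.notMem_empty i)
    · refine ⟨e, hS36 e (Finset.mem_filter.mp he).1, ?_⟩
      intro i hi
      by_cases hb : X.testBit i = true
      · exact Or.inr hb
      · left
        have h1 : i ∈ S.filter (fun i => X.testBit i = false) :=
          Finset.mem_filter.mpr ⟨hi, by simpa using hb⟩
        exact Finset.card_le_one.mp hcard i h1 e he
  have hall : ∀ d ∈ tbl, (KK X (Nat.xor ALL X) d).testBit e = true := fun d hd =>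
    KK_bit X e he36 d (tbl_ok d hd) S he (hcon d hd)
  have h1 := chk1_sound X e hall tbl ALL (fun d hd => hd) (ALL_bit e he36)
  unfold F1 at hX
  rw [h1] at hX
  exact absurd hX (by simp)

theorem P_step (k : ℕ) (fs fd : ℕ → Bool) (hs : P (k + 1) fs) (hd : P k fd) :
    P (k + 2) (node fs fd) := by
  intro X hX S hS36 hXS hcard
  unfold node at hX
  rcases hf : findA X (Nat.xor ALL X) tbl with _ | d
  · rw [hf] at hX
    simp at hX
  · rw [hf] at hX
    simp only [Bool.and_eq_true, List.all_eq_true] at hX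
    obtain ⟨hX1, hX2⟩ := hX
    obtain ⟨hdt, hal⟩ := findA_spec X tbl d hf
    have hok := tbl_ok d hdt
    obtain ⟨h1, h2⟩ := alive_spec X d hok hal
    by_cases hk : Killed d S
    · have hsub' : ∀ m, Sub m S → Sub (Nat.lor X m) S := by
        intro m hm i hi
        rw [lor_bit, Bool.or_eq_true] at hi
        rcases hi with hi | hi
        · exact hXS i hi
        · exact hm i hi
      have hss : ∀ m, (S.filter (fun i => (Nat.lor X m).testBit i = false)) ⊆
          S.filter (fun i => X.testBit i = false) := by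
        intro m i hi
        rw [Finset.mem_filter] at hi ⊢
        refine ⟨hi.1, ?_⟩
        have := hi.2
        rw [lor_bit, Bool.or_eq_false_iff] at this
        exact this.1
      have hone : ∀ m i, Sub m S → m.testBit i = true → X.testBit i = false →
          (S.filter (fun i => (Nat.lor X m).testBit i = false)).card ≤ k + 1 := by
        intro m i hm hi hXi
        have hlt : (S.filter (fun i => (Nat.lor X m).testBit i = false)).card <
            (S.filter (fun i => X.testBit i = false)).card := by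
          apply Finset.card_lt_card
          rw [Finset.ssubset_iff_of_subset (hss m)]
          refine ⟨i, Finset.mem_filter.mpr ⟨hm i hi, hXi⟩, ?_⟩
          rw [Finset.mem_filter]
          rintro ⟨-, h⟩
          rw [lor_bit, hi] at h
          simp at h
        omega
      have htwo : ∀ m i j, i ≠ j → Sub m S → m.testBit i = true → X.testBit i = false →
          m.testBit j = true → X.testBit j = false →
          (S.filter (fun i => (Nat.lor X m).testBit i = false)).card ≤ k := by
        intro m i j hij hm hi hXi hj hXj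
        have hsub2 : (S.filter (fun i => (Nat.lor X m).testBit i = false)) ⊆
            ((S.filter (fun i => X.testBit i = false)).erase i).erase j := by
          intro x hx
          have hx1 := hss m hx
          rw [Finset.mem_filter, lor_bit, Bool.or_eq_false_iff] at hx
          rw [Finset.mem_erase, Finset.mem_erase]
          refine ⟨?_, ?_, hx1⟩
          · rintro rfl
            rw [hj] at hx
            simp at hx
          · rintro rfl
            rw [hi] at hx
            simp at hx
        have hi' : i ∈ S.filter (fun i => X.testBit i = false) :=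
          Finset.mem_filter.mpr ⟨hm i hi, hXi⟩
        have hj' : j ∈ (S.filter (fun i => X.testBit i = false)).erase i :=
          Finset.mem_erase.mpr ⟨fun h => hij h.symm, Finset.mem_filter.mpr ⟨hm j hj, hXj⟩⟩
        have hc := Finset.card_le_card hsub2
        rw [Finset.card_erase_of_mem hj', Finset.card_erase_of_mem hi'] at hc
        omega
      rcases hk with ⟨m, hm, hsub⟩ | ⟨m, hm, hsub⟩
      · obtain ⟨i, hi1, -, hi3⟩ := h1 m hm
        exact hs (Nat.lor X m) (hX1 m hm) S hS36 (hsub' m hsub) (hone m i hsub hi1 hi3)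
      · have hbits : ∀ i, (Nat.land m (Nat.xor ALL X)).testBit i = true →
            m.testBit i = true ∧ X.testBit i = false := by
          intro i hi
          rw [land_bit, Bool.and_eq_true] at hi
          have hi36 := bit_lt (hok.2 m hm) hi.1
          rw [nX_bit X i hi36] at hi
          refine ⟨hi.1, ?_⟩
          simpa using hi.2
        have hbr := hX2 m hm
        unfold branch at hbr
        rcases h3 : Nat.beq (Nat.land (Nat.land m (Nat.xor ALL X))
            (Nat.sub (Nat.land m (Nat.xor ALL X)) 1)) 0 with _ | _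
        · rw [h3] at hbr
          simp only at hbr
          have h4 : Nat.land (Nat.land m (Nat.xor ALL X))
              (Nat.sub (Nat.land m (Nat.xor ALL X)) 1) ≠ 0 := by
            intro h0
            rw [(beq_zero_iff _).mpr h0] at h3
            exact absurd h3 (by simp)
          obtain ⟨i, j, hij, hi, hj⟩ := two_bits h4
          obtain ⟨hi1, hi2⟩ := hbits i hi
          obtain ⟨hj1, hj2⟩ := hbits j hj
          exact hd (Nat.lor X m) hbr S hS36 (hsub' m hsub) (htwo m i j hij hsub hi1 hi2 hj1 hj2)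
        · rw [h3] at hbr
          simp only at hbr
          obtain ⟨i, hi⟩ := exists_bit (h2 m hm)
          obtain ⟨hi1, hi2⟩ := hbits i hi
          exact hs (Nat.lor X m) hbr S hS36 (hsub' m hsub) (hone m i hsub hi1 hi2)
    · exact ⟨d, hdt, hk⟩

theorem P4 : P 4 F4 := P_step 2 F3 F2 (P_step 1 F2 F1 (P_step 0 F1 F0 P1 P0) P1)
  (P_step 0 F1 F0 P1 P0)

theorem exists_entry (S : Finset ℕ) (hS : ∀ i ∈ S, i < 36) (hc : S.card ≤ 4) :
    ∃ d ∈ tbl, ¬ Killed d S := by
  apply P4 0 F4_check S hS
  · intro i hi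
    simp at hi
  · exact (Finset.card_filter_le _ _).trans hc

/-! ### from masks to the graph -/

/-- mask of the edges from `v` into `D` -/
def kmask (D : ℕ) : List (ℕ × ℕ) → ℕ
  | [] => 0
  | p :: ps => match D.testBit p.2 with
    | true => Nat.lor (2 ^ p.1) (kmask D ps)
    | false => kmask D ps

theorem kmask_bit (D i : ℕ) : ∀ l : List (ℕ × ℕ), (kmask D l).testBit i = true →
    ∃ p ∈ l, p.1 = i ∧ D.testBit p.2 = true := by
  intro l
  induction l with
  | nil => intro h; exact absurd h (by simp [kmask])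
  | cons p ps ih =>
    intro h
    unfold kmask at h
    rcases h2 : D.testBit p.2 with _ | _
    · rw [h2] at h
      simp only at h
      obtain ⟨q, hq, hq2⟩ := ih h
      exact ⟨q, List.mem_cons_of_mem _ hq, hq2⟩
    · rw [h2] at h
      simp only at h
      rw [lor_bit, Bool.or_eq_true] at h
      rcases h with h | h
      · rw [Nat.testBit_two_pow] at h
        exact ⟨p, by simp, by simpa using h, h2⟩
      · obtain ⟨q, hq, hq2⟩ := ih h
        exact ⟨q, List.mem_cons_of_mem _ hq, hq2⟩

theorem incL_spec : ∀ v : Fin 24, ∀ p ∈ incL.getD v.val [], p.1 < 36 ∧ p.2 < 24 ∧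
    ((s (Fin.ofNat 36 p.1) = v ∧ (t (Fin.ofNat 36 p.1)).val = p.2) ∨
     (t (Fin.ofNat 36 p.1) = v ∧ (s (Fin.ofNat 36 p.1)).val = p.2)) := by
  decide +kernel

theorem tbl_kmask : ∀ d ∈ tbl, ∀ v : Fin 24, d.1.testBit v.val = true ∨
    kmask d.1 (incL.getD v.val []) ∈ d.2.2.1 ∨ kmask d.1 (incL.getD v.val []) ∈ d.2.2.2 := by
  decide +kernel

theorem tbl_card : ∀ d ∈ tbl,
    (Finset.univ.filter (fun v : Fin 24 => d.1.testBit v.val = true)).card = 8 := by
  decide +kernel

theorem exists_dom (S : Finset (Fin 36)) (hS : S.card ≤ 4) : ∃ D : Finset (Fin 24),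
    D.card = 8 ∧ ∀ v, v ∈ D ∨ ∃ e, e ∉ S ∧ ((s e = v ∧ t e ∈ D) ∨ (t e = v ∧ s e ∈ D)) := by
  obtain ⟨d, hd, hk⟩ := exists_entry (S.map Fin.valEmbedding)
    (by
      intro i hi
      rw [Finset.mem_map] at hi
      obtain ⟨e, -, rfl⟩ := hi
      exact e.isLt)
    (by rw [Finset.card_map]; exact hS)
  refine ⟨Finset.univ.filter (fun v : Fin 24 => d.1.testBit v.val = true), tbl_card d hd, ?_⟩
  intro v
  by_cases hv : d.1.testBit v.val = true
  · left
    simpa using hv
  right
  have hns : ¬ Sub (kmask d.1 (incL.getD v.val [])) (S.map Fin.valEmbedding) := by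
    intro hsub
    apply hk
    rcases tbl_kmask d hd v with h | h | h
    · exact absurd h hv
    · exact Or.inl ⟨_, h, hsub⟩
    · exact Or.inr ⟨_, h, hsub⟩
  unfold Sub at hns
  push Not at hns
  obtain ⟨i, hi, hiS⟩ := hns
  obtain ⟨p, hp, rfl, hpD⟩ := kmask_bit _ _ _ hi
  obtain ⟨h36, -, hst⟩ := incL_spec v p hp
  have hval : (Fin.ofNat 36 p.1).val = p.1 := by
    change p.1 % 36 = p.1
    exact Nat.mod_eq_of_lt h36
  refine ⟨Fin.ofNat 36 p.1, ?_, ?_⟩
  · intro hmem
    apply hiS
    rw [Finset.mem_map]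
    exact ⟨_, hmem, hval⟩
  · rcases hst with ⟨h1, h2⟩ | ⟨h1, h2⟩
    · left
      refine ⟨h1, ?_⟩
      simp only [Finset.mem_filter, Finset.mem_univ, true_and]
      rw [h2]
      exact hpD
    · right
      refine ⟨h1, ?_⟩
      simp only [Finset.mem_filter, Finset.mem_univ, true_and]
      rw [h2]
      exact hpD

end Pool.Agent.Bondage
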